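import Pool.Agent.Helper89.GW.Stmts

/-!
# The immersed Lagrangian is compact
-/

set_option autoImplicit false

open scoped ContDiff Topology
open Set Filter

namespace GW

theorem cpt_pr : Continuous pr := by
  unfold pr
  fun_prop

theorem cpt_D1 : IsClosed {q : E | D1 (pr q)} := by
  have h1 : Continuous (fun q : E => (pr q).2) := continuous_snd.comp cpt_pr
  have h : {q : E | D1 (pr q)} = {q | (pr q).2 ≤ 7 / 2} ∪ {q | 41 / 2 ≤ (pr q).2} := by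
    ext q
    rfl
  rw [h]
  exact (isClosed_le h1 continuous_const).union (isClosed_le continuous_const h1)

theorem cpt_D2 : IsClosed {q : E | D2 (pr q)} := by
  have h1 : Continuous (fun q : E => (pr q).1) := continuous_fst.comp cpt_pr
  have h2 : Continuous (fun q : E => (pr q).2) := continuous_snd.comp cpt_pr
  have h : {q : E | D2 (pr q)} = {q | 7 / 2 ≤ (pr q).2} ∩ {q | (pr q).2 ≤ 41 / 2} ∩
      ({q | (pr q).1 ≤ 7 / 2} ∪ {q | 15 / 2 ≤ (pr q).1} ∪ {q | (pr q).2 ≤ 17 / 2} ∪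
        {q | 31 / 2 ≤ (pr q).2}) := by
    ext q
    simp only [D2, mem_ofPred_eq, mem_inter_iff, mem_union]
    constructor
    · rintro ⟨h1, h2, h3⟩
      refine ⟨⟨h1, h2⟩, ?_⟩
      by_contra hcon
      apply h3
      simp only [not_or, not_le] at hcon
      exact ⟨hcon.1.1.1, hcon.1.1.2, hcon.1.2, hcon.2⟩
    · rintro ⟨⟨h1, h2⟩, h3⟩
      refine ⟨h1, h2, ?_⟩
      rintro ⟨h4, h5, h6, h7⟩
      rcases h3 with ((h3 | h3) | h3) | h3 <;> linarith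
  rw [h]
  refine ((isClosed_le continuous_const h2).inter (isClosed_le h2 continuous_const)).inter ?_
  exact (((isClosed_le h1 continuous_const).union (isClosed_le continuous_const h1)).union
    (isClosed_le h2 continuous_const)).union (isClosed_le continuous_const h2)

theorem cpt_D3 : IsCompact {z : ℝ × ℝ | D3 z} := by
  have h : {z : ℝ × ℝ | D3 z} = Icc (7 / 2) (15 / 2) ×ˢ Icc (17 / 2) (31 / 2) := by
    ext z
    simp only [D3, mem_ofPred_eq, mem_prod, mem_Icc]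
    tauto
  rw [h]
  exact isCompact_Icc.prod isCompact_Icc

theorem st_CPT (hJCL : ST_JCL) (hGLEG : ST_GLEG) (hSPD : ST_SPD) (hDAT : ST_DAT) : ST_CPT := by
  obtain ⟨⟨hA, hA', hB, hM, hP, hQ, hX⟩, -⟩ := hDAT
  obtain ⟨sA, cA, -⟩ := hSPD aI hA
  obtain ⟨sA', cA', -⟩ := hSPD aI' hA'
  obtain ⟨sB, cB, -⟩ := hSPD bI hB
  obtain ⟨sM, cM, -⟩ := hSPD mI hM
  obtain ⟨sP, cP, -⟩ := hSPD pI hP
  obtain ⟨sQ, cQ, -⟩ := hSPD qI hQ
  obtain ⟨sX, cX, -⟩ := hSPD xI hX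
  have smR : ContDiff ℝ ∞ mR := sM.add (contDiff_const.mul sX)
  have sphX : ContDiff ℝ ∞ phX := (sP.add sQ).div_const 2
  have suX : ContDiff ℝ ∞ uX := (sP.sub sQ).div_const 2
  have cuX : HasCompactSupport uX := by
    have h1 : HasCompactSupport (fun z => sp pI z - sp qI z) := cP.sub cQ
    exact h1.comp_left (g := fun x : ℝ => x / 2) (by norm_num)
  have spsA : ContDiff ℝ ∞ psA := sA.neg.add contDiff_const
  have spsB : ContDiff ℝ ∞ psB := (sM.sub sB).add contDiff_const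
  have k1 := hJCL (fun _ => 0) uA contDiff_const sA cA
  have k2 := hJCL (fun _ => 0) uA' contDiff_const sA' cA'
  have k3 := hJCL mR uB smR sB cB
  have k4 := hJCL phX uX sphX suX cuX
  have k5 := (hGLEG psA spsA).2.2 _ cpt_D3
  have k6 := (hGLEG psB spsB).2.2 _ cpt_D3
  have hD3 : IsClosed {q : E | D3 (pr q)} := cpt_D3.isClosed.preimage cpt_pr
  have h : prj Lh = (prj (Jn (fun _ => 0) uA) ∩ {q : E | D1 (pr q)}) ∪
      ((prj (Jn (fun _ => 0) uA') ∪ prj (Jn mR uB)) ∩ {q : E | D2 (pr q)}) ∪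
      ((prj (Jn phX uX) ∩ {q : E | D3 (pr q)}) ∪
        ({q | q ∈ prj (Gr psA) ∧ pr q ∈ {z | D3 z}} ∪
          {q | q ∈ prj (Gr psB) ∧ pr q ∈ {z | D3 z}})) := by
    ext q
    constructor
    · rintro ⟨v, h | ⟨h, h' | h'⟩ | ⟨h, h' | h' | h'⟩⟩
      · exact Or.inl (Or.inl ⟨⟨v, h.2⟩, h.1⟩)
      · exact Or.inl (Or.inr ⟨Or.inl ⟨v, h'⟩, h⟩)
      · exact Or.inl (Or.inr ⟨Or.inr ⟨v, h'⟩, h⟩)
      · exact Or.inr (Or.inl ⟨⟨v, h'⟩, h⟩)
      · exact Or.inr (Or.inr (Or.inl ⟨⟨v, h'⟩, h⟩))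
      · exact Or.inr (Or.inr (Or.inr ⟨⟨v, h'⟩, h⟩))
    · rintro ((⟨⟨v, h'⟩, h⟩ | ⟨⟨v, h'⟩ | ⟨v, h'⟩, h⟩) | (⟨⟨v, h'⟩, h⟩ | ⟨⟨v, h'⟩, h⟩ | ⟨⟨v, h'⟩, h⟩))
      · exact ⟨v, Or.inl ⟨h, h'⟩⟩
      · exact ⟨v, Or.inr (Or.inl ⟨h, Or.inl h'⟩)⟩
      · exact ⟨v, Or.inr (Or.inl ⟨h, Or.inr h'⟩)⟩
      · exact ⟨v, Or.inr (Or.inr ⟨h, Or.inl h'⟩)⟩
      · exact ⟨v, Or.inr (Or.inr ⟨h, Or.inr (Or.inl h')⟩)⟩
      · exact ⟨v, Or.inr (Or.inr ⟨h, Or.inr (Or.inr h')⟩)⟩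
  unfold ST_CPT
  rw [h]
  exact (((k1.inter_right cpt_D1).union ((k2.union k3).inter_right cpt_D2)).union
    ((k4.inter_right hD3).union (k5.union k6)))

end GW
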